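import Mathlib

set_option autoImplicit false

namespace Pool.Agent.Results.MP_90a930_lc.Tree

open Finset

section defs
variable {V : Type} [Fintype V] [DecidableEq V] (G : SimpleGraph V) [DecidableRel G.Adj]

/-- `M` is a matching of `G`: a set of edges of `G`, no two of which share a vertex. -/
def IsMatch (M : Finset (Sym2 V)) : Prop :=
  M ⊆ G.edgeFinset ∧ ∀ e ∈ M, ∀ e' ∈ M, e ≠ e' → ∀ v, v ∈ e → v ∉ e'

/-- There is a feasible schedule. -/
def Schedulable (f : Sym2 V → ℕ) : Prop :=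
  ∃ S : ℕ → Finset (Sym2 V), (∀ t, IsMatch G (S t)) ∧
    ∀ e ∈ G.edgeFinset, ∀ t, ∃ i < f e, e ∈ S (t + i)

/-- The largest value of `∑ e ∈ M, z e * f e` over the inclusion-maximal matchings `M`. -/
noncomputable def maxLoad (f : Sym2 V → ℕ) (z : Sym2 V → ℝ) : ℝ :=
  sSup {w : ℝ | ∃ M, Maximal (IsMatch G) M ∧ w = ∑ e ∈ M, z e * f e}

/-- Poly density. -/
noncomputable def polyDensity (f : Sym2 V → ℕ) : ℝ :=
  sSup {d : ℝ | ∃ z : Sym2 V → ℝ, (∀ e ∈ G.edgeFinset, 0 ≤ z e ∧ z e ≤ 1) ∧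
    ∑ e ∈ G.edgeFinset, z e = 1 ∧ d = 1 / maxLoad G f z}

end defs

theorem core (A B C D E F H : ℕ → Prop)
    (wA : ∀ t, ∃ i < 2, A (t + i)) (wB : ∀ t, ∃ i < 3, B (t + i)) (wC : ∀ t, ∃ i < 4, C (t + i))
    (wD : ∀ t, ∃ i < 12, D (t + i)) (wE : ∀ t, ∃ i < 3, E (t + i))
    (wF : ∀ t, ∃ i < 8, F (t + i)) (wH : ∀ t, ∃ i < 24, H (t + i))
    (ab : ∀ t, A t → ¬ B t) (ac : ∀ t, A t → ¬ C t) (ad : ∀ t, A t → ¬ D t)
    (cd : ∀ t, C t → ¬ D t) (be : ∀ t, B t → ¬ E t) (bf : ∀ t, B t → ¬ F t)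
    (bh : ∀ t, B t → ¬ H t) (ef : ∀ t, E t → ¬ F t) (eh : ∀ t, E t → ¬ H t)
    (fh : ∀ t, F t → ¬ H t) : False := by
  classical
  have a2 : ∀ t, A t ∨ A (t + 1) := fun t => by
    obtain ⟨i, hi, h⟩ := wA t
    interval_cases i <;> tauto
  have b3 : ∀ t, B t ∨ B (t + 1) ∨ B (t + 2) := fun t => by
    obtain ⟨i, hi, h⟩ := wB t
    interval_cases i <;> tauto
  have e3 : ∀ t, E t ∨ E (t + 1) ∨ E (t + 2) := fun t => by
    obtain ⟨i, hi, h⟩ := wE t
    interval_cases i <;> tauto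
  have c4 : ∀ t, C t ∨ C (t + 1) ∨ C (t + 2) ∨ C (t + 3) := fun t => by
    obtain ⟨i, hi, h⟩ := wC t
    interval_cases i <;> tauto
  have nb : ∀ t, ¬ A (t + 1) → B (t + 1) := fun t h => by
    have h1 := a2 t
    have h2 : A (t + 1) ∨ A (t + 2) := a2 (t + 1)
    have := b3 t
    have := ab t
    have := ab (t + 2)
    tauto
  have hD : ∀ s, D (s + 3) → B (s + 1) ∧ B (s + 3) ∧ B (s + 5) := fun s h => by
    have n3 : ¬ A (s + 3) := fun h' => ad _ h' h
    have h2 : A (s + 2) := (a2 (s + 2)).resolve_right n3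
    have h4 : A (s + 4) := (a2 (s + 3)).resolve_left n3
    have c1 : C (s + 1) ∨ C (s + 2) ∨ C (s + 3) ∨ C (s + 4) := c4 (s + 1)
    have c2 : C (s + 2) ∨ C (s + 3) ∨ C (s + 4) ∨ C (s + 5) := c4 (s + 2)
    have := ac _ h2
    have := ac _ h4
    have := cd (s + 3)
    refine ⟨nb s fun h' => ac _ h' (by tauto), nb (s + 2) n3, nb (s + 4) fun h' => ac _ h' ?_⟩
    change C (s + 5)
    tauto
  have slot : ∀ x, ¬ B (x + 2) → ¬ E (x + 2) → ∃ u, (u + 1 = x + 2 ∨ u + 2 = x + 2) ∧ B u ∧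
      ¬ B (u + 1) ∧ ¬ B (u + 2) ∧ (E (u + 1) ∨ E (u + 2)) := fun x h1 h2 => by
    have b1 : B (x + 1) ∨ B (x + 2) ∨ B (x + 3) := b3 (x + 1)
    have e1 : E (x + 1) ∨ E (x + 2) ∨ E (x + 3) := e3 (x + 1)
    have := be (x + 1)
    have := be (x + 3)
    have := b3 x
    by_cases h : B (x + 1)
    · exact ⟨x + 1, Or.inl rfl, h, h1, by change ¬ B (x + 3); tauto, by
        change E (x + 2) ∨ E (x + 3); tauto⟩
    · exact ⟨x, Or.inr rfl, by tauto, h, h1, by tauto⟩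
  have ne : ∀ (P : ℕ → Prop) i j, P i → ¬ P j → i ≠ j := fun P i j h1 h2 h => h2 (h ▸ h1)
  obtain ⟨i, -, ht⟩ := wH 24
  obtain ⟨t, rfl⟩ : ∃ t, i = t := ⟨_, rfl⟩
  obtain ⟨j, hj, hp⟩ := wF (17 + i)
  have p1 : F (Nat.findGreatest F (24 + i)) := Nat.findGreatest_spec (by omega) hp
  have p2 : 17 + i + j ≤ Nat.findGreatest F (24 + i) := Nat.le_findGreatest (by omega) hp
  have p3 := Nat.findGreatest_le (P := F) (24 + i)
  have p4 := fun k => Nat.findGreatest_is_greatest (P := F) (n := 24 + i) (k := k)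
  generalize Nat.findGreatest F (24 + i) = p at p1 p2 p3 p4
  obtain ⟨k, hk, hr⟩ := wF (p + 1)
  have r1 : 24 + i < p + 1 + k := by
    by_contra h
    exact p4 _ (by omega) (by omega) hr
  have p5 := ne F _ _ p1 fun h => fh _ h ht
  obtain ⟨p, rfl⟩ : ∃ q, p = q + 2 := ⟨p - 2, by omega⟩
  obtain ⟨r, e⟩ : ∃ r, p + 2 + 1 + k = r + 2 := ⟨p + 1 + k, by omega⟩
  rw [e] at hr
  have e' : 24 + i = 22 + i + 2 := by omega
  rw [e'] at ht
  have np : ¬ E (p + 2) := fun h => ef _ h p1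
  have nt : ¬ E (22 + i + 2) := fun h => eh _ h ht
  have nr : ¬ E (r + 2) := fun h => ef _ h hr
  obtain ⟨u, u0, u1, u2, u3, u4⟩ := slot p (fun h => bf _ h p1) np
  obtain ⟨v, v0, v1, v2, v3, v4⟩ := slot (22 + i) (fun h => bh _ h ht) nt
  obtain ⟨w, w0, w1, w2, w3, w4⟩ := slot r (fun h => bf _ h hr) nr
  have uv : u + 3 ≤ v := by
    have := ne B _ _ v1 u2
    have := ne B _ _ v1 u3
    rcases u4 with h | h <;> have := ne E _ _ h np <;> have := ne E _ _ h nt <;> omega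
  have vw : v + 3 ≤ w := by
    have := ne B _ _ w1 v2
    have := ne B _ _ w1 v3
    rcases v4 with h | h <;> have := ne E _ _ h nr <;> have := ne E _ _ h nt <;> omega
  obtain ⟨l, hl, hs⟩ := wD (u - 1)
  obtain ⟨s, es⟩ : ∃ s, u - 1 + l = s + 3 := ⟨u - 1 + l - 3, by omega⟩
  rw [es] at hs
  obtain ⟨s1, s2, s3⟩ := hD s hs
  have sep : ∀ y, ¬ B (y + 1) → ¬ B (y + 2) → s + 5 ≤ y ∨ y + 2 ≤ s := fun y y1 y2 => by
    have := ne B _ _ s1 y1
    have := ne B _ _ s2 y1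
    have := ne B _ _ s3 y1
    have := ne B _ _ s1 y2
    have := ne B _ _ s2 y2
    have := ne B _ _ s3 y2
    omega
  have := sep u u2 u3
  have := sep v v2 v3
  have := sep w w2 w3
  omega

def ed : Finset (Sym2 (Fin 8)) := {s(0, 1), s(0, 2), s(1, 3), s(1, 4), s(2, 5), s(2, 6), s(2, 7)}

def GG : SimpleGraph (Fin 8) where
  Adj a b := s(a, b) ∈ ed
  symm := ⟨by decide⟩
  loopless := ⟨by decide⟩

instance : DecidableRel GG.Adj := fun a b => inferInstanceAs (Decidable (s(a, b) ∈ ed))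

def ff (e : Sym2 (Fin 8)) : ℕ :=
  if e = s(0, 1) then 2 else if e = s(0, 2) then 3 else if e = s(1, 3) then 4 else
  if e = s(1, 4) then 12 else if e = s(2, 5) then 3 else if e = s(2, 6) then 8 else 24

theorem edge_eq : GG.edgeFinset = ed := by
  ext e
  induction e using Sym2.ind
  rw [SimpleGraph.mem_edgeFinset]
  rfl

theorem maximal (M : Finset (Sym2 (Fin 8))) (h1 : M ⊆ ed)
    (h2 : ∀ e ∈ M, ∀ e' ∈ M, e ≠ e' → ∀ v, v ∈ e → v ∉ e')
    (h3 : ∀ e ∈ ed, e ∉ M → ∃ e' ∈ M, ∃ v, v ∈ e ∧ v ∈ e') : Maximal (IsMatch GG) M := by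
  refine ⟨⟨edge_eq ▸ h1, h2⟩, fun N hN hMN e he => ?_⟩
  by_contra hn
  obtain ⟨e', he', v, h4, h5⟩ := h3 e (edge_eq ▸ hN.1 he) hn
  exact hN.2 e he e' (hMN he') (fun h => hn (h ▸ he')) v h4 h5

/-- An unschedulable instance with poly density at most `5 / 6`. -/
theorem result : ∃ (V : Type) (_ : Fintype V) (_ : DecidableEq V) (G : SimpleGraph V)
    (_ : DecidableRel G.Adj) (f : Sym2 V → ℕ), G.edgeFinset.Nonempty ∧ (∀ e, 1 ≤ f e) ∧
    polyDensity G f ≤ 5 / 6 ∧ ¬ Schedulable G f := by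
  refine ⟨Fin 8, inferInstance, inferInstance, GG, inferInstance, ff, ?_, ?_, ?_, ?_⟩
  · rw [edge_eq]; decide
  · intro e; unfold ff; split_ifs <;> omega
  · refine Real.sSup_le ?_ (by norm_num)
    rintro _ ⟨z, -, h, rfl⟩
    have b : BddAbove {w : ℝ | ∃ M, Maximal (IsMatch GG) M ∧ w = ∑ e ∈ M, z e * ff e} :=
      ((Set.finite_range fun M : Finset (Sym2 (Fin 8)) => ∑ e ∈ M, z e * ff e).subset
        (by rintro _ ⟨M, -, rfl⟩; exact ⟨M, rfl⟩)).bddAbove
    have k : ∀ a b : Sym2 (Fin 8), a ≠ b → Maximal (IsMatch GG) {a, b} →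
        z a * ff a + z b * ff b ≤ maxLoad GG ff z := fun a c hac hm =>
      le_csSup b ⟨_, hm, (sum_pair (f := fun e => z e * ff e) hac).symm⟩
    have k1 := k s(0, 1) s(2, 5) (by decide) (maximal _ (by decide) (by decide) (by decide))
    have k2 := k s(0, 1) s(2, 6) (by decide) (maximal _ (by decide) (by decide) (by decide))
    have k3 := k s(0, 1) s(2, 7) (by decide) (maximal _ (by decide) (by decide) (by decide))
    have k4 := k s(0, 2) s(1, 3) (by decide) (maximal _ (by decide) (by decide) (by decide))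
    have k5 := k s(0, 2) s(1, 4) (by decide) (maximal _ (by decide) (by decide) (by decide))
    rw [show ff s(0, 1) = 2 by decide] at k1 k2 k3
    rw [show ff s(0, 2) = 3 by decide] at k4 k5
    rw [show ff s(2, 5) = 3 by decide] at k1
    rw [show ff s(2, 6) = 8 by decide] at k2
    rw [show ff s(2, 7) = 24 by decide] at k3
    rw [show ff s(1, 3) = 4 by decide] at k4
    rw [show ff s(1, 4) = 12 by decide] at k5
    rw [edge_eq, ed, sum_insert (by decide), sum_insert (by decide), sum_insert (by decide),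
      sum_insert (by decide), sum_insert (by decide), sum_pair (by decide)] at h
    push_cast at k1 k2 k3 k4 k5
    rw [div_le_iff₀ (by linarith)]
    linarith
  · rintro ⟨S, h1, h2⟩
    rw [edge_eq] at h2
    have x : ∀ (a b : Sym2 (Fin 8)) (v : Fin 8), a ≠ b → v ∈ a → v ∈ b →
        ∀ t, a ∈ S t → ¬ b ∈ S t := fun a b v h h3 h4 t h5 h6 => (h1 t).2 a h5 b h6 h v h3 h4
    have y : ∀ e n, e ∈ ed → ff e = n → ∀ t, ∃ i < n, e ∈ S (t + i) := fun e n h h' => h' ▸ h2 e h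
    exact core (fun t => s(0, 1) ∈ S t) (fun t => s(0, 2) ∈ S t) (fun t => s(1, 3) ∈ S t)
      (fun t => s(1, 4) ∈ S t) (fun t => s(2, 5) ∈ S t) (fun t => s(2, 6) ∈ S t)
      (fun t => s(2, 7) ∈ S t) (y _ _ (by decide) (by decide)) (y _ _ (by decide) (by decide))
      (y _ _ (by decide) (by decide)) (y _ _ (by decide) (by decide))
      (y _ _ (by decide) (by decide)) (y _ _ (by decide) (by decide))
      (y _ _ (by decide) (by decide))
      (x _ _ 0 (by decide) (by decide) (by decide)) (x _ _ 1 (by decide) (by decide) (by decide))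
      (x _ _ 1 (by decide) (by decide) (by decide)) (x _ _ 1 (by decide) (by decide) (by decide))
      (x _ _ 2 (by decide) (by decide) (by decide)) (x _ _ 2 (by decide) (by decide) (by decide))
      (x _ _ 2 (by decide) (by decide) (by decide)) (x _ _ 2 (by decide) (by decide) (by decide))
      (x _ _ 2 (by decide) (by decide) (by decide)) (x _ _ 2 (by decide) (by decide) (by decide))

end Pool.Agent.Results.MP_90a930_lc.Tree
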